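import Mathlib
import Pool.Agent.Lib.MP_d57abb_nt.Ev.Main

/-!
# Almost primes `k² + 3 k + 1` in residue classes of the number of prime factors

Let `m ≥ 1` and let `h` be completely additive with values modulo `m`, for instance `Ω` modulo `m`.
Suppose that for some `Q` the value `h p` is a fixed unit for all large primes `p ≡ 1` modulo `Q`.
Then there is `C` such that for every `c` there are at least `N / (log N) ^ C` integers `k ≤ N` with
`h (k² + 3 k + 1) = 2 c` for which `k² + 3 k + 1` has at most `C` prime factors.  For odd `m` the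
residue `2 c` is arbitrary, for instance `1`, the class of the primes.

Proof.  The Ramsey theorem of the hand-in `AllModuli` (`PB3`: entropy decrement, uniformity of the
primes in progressions) is applied in frames `z₀ = (a, b)`, `v = (c, e)`, `a e - b c = 1`, `a` prime,
for which all the norms of `x z₀ + y v`, `x ≤ 2`, `y ≤ X` (`X` fixed) have no prime factor between `w`
and a fixed power of `a` and no large power of a smaller prime.  Such frames exist, and there are
`a / (log a) ^ C` of them for every prime `a`, by a lower bound sieve of dimension `4 (X + 1)`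
(`AP/SvC`), whose error terms are bounded by the Weil bound for Kloosterman sums (proved here,
`BH/Weil`; `AP/Kl`, `AP/Cnt`, `AP/Cls`).
-/

/-- **Main theorem.** -/
theorem Pool.Agent.Results.MP_d57abb_nt.AlmostPrimes.result (m : ℕ) (hm : 0 < m) (h : ℕ → ZMod m)
    (hadd : ∀ a b : ℕ, 0 < a → 0 < b → h (a * b) = h a + h b)
    (Q : ℕ) (hQ : 0 < Q) (γ : ZMod m) (hγ : IsUnit γ)
    (hP : ∃ P₀ : ℕ, ∀ p : ℕ, p.Prime → P₀ ≤ p → p ≡ 1 [MOD Q] → h p = γ) :
    ∃ C N₀ : ℕ, ∀ c : ZMod m, ∀ N ≥ N₀, (N : ℝ) / Real.log N ^ C ≤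
      ((Finset.Icc 1 N).filter (fun k => h (k ^ 2 + 3 * k + 1) = 2 * c ∧
        ArithmeticFunction.cardFactors (k ^ 2 + 3 * k + 1) ≤ C)).card := by
  have : NeZero m := ⟨hm.ne'⟩
  exact Pool.Agent.Lib.MP_d57abb_nt.Ev.main_v h hadd Q hQ γ hγ hP

namespace Pool.Agent.Lib.MP_d57abb_nt.Ev

/-- For every odd `m` there is `C` such that for every residue `c`, in particular for `c = 1`, there
are at least `N / (log N) ^ C` integers `k ≤ N` such that `k² + 3 k + 1` has at most `C` prime
factors and their number is `≡ c (mod m)`. -/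
theorem almost_primes_odd (m : ℕ) (hm : Odd m) : ∃ C N₀ : ℕ, ∀ c : ℕ, ∀ N ≥ N₀,
    (N : ℝ) / Real.log N ^ C ≤ ((Finset.Icc 1 N).filter (fun k =>
      ArithmeticFunction.cardFactors (k ^ 2 + 3 * k + 1) ≡ c [MOD m] ∧
      ArithmeticFunction.cardFactors (k ^ 2 + 3 * k + 1) ≤ C)).card := by
  have : NeZero m := ⟨by rintro rfl; exact absurd hm (by decide)⟩
  obtain ⟨C, N₀, h1⟩ := main_v (fun n => (ArithmeticFunction.cardFactors n : ZMod m))
    (by
      intro a b ha hb
      rw [ArithmeticFunction.cardFactors_mul ha.ne' hb.ne']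
      push_cast; ring) 1 one_pos 1 isUnit_one ⟨0, fun p hp _ _ => by
        rw [ArithmeticFunction.cardFactors_apply_prime hp]; simp⟩
  obtain ⟨k₀, hk⟩ := hm
  refine ⟨C, N₀, fun c N hN => (h1 (-(k₀ : ZMod m) * c) N hN).trans (le_of_eq ?_)⟩
  have h2 : (2 : ZMod m) * (-(k₀ : ZMod m) * c) = c := by
    have h3 : ((2 * k₀ + 1 : ℕ) : ZMod m) = 0 := by rw [← hk]; exact ZMod.natCast_self m
    push_cast at h3
    linear_combination (-(c : ZMod m)) * h3
  rw [h2]
  have h4 : (Finset.Icc 1 N).filter (fun k =>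
      (ArithmeticFunction.cardFactors (k ^ 2 + 3 * k + 1) : ZMod m) = (c : ZMod m) ∧
      ArithmeticFunction.cardFactors (k ^ 2 + 3 * k + 1) ≤ C) =
      (Finset.Icc 1 N).filter (fun k =>
      ArithmeticFunction.cardFactors (k ^ 2 + 3 * k + 1) ≡ c [MOD m] ∧
      ArithmeticFunction.cardFactors (k ^ 2 + 3 * k + 1) ≤ C) := by
    refine Finset.filter_congr fun k _ => ?_
    rw [← ZMod.natCast_eq_natCast_iff]
  rw [h4]

end Pool.Agent.Lib.MP_d57abb_nt.Ev
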