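import Mathlib
import Pool.Agent.Lib.MP_d57abb_nt.EE.MainJ

/-!
# Values `k² + 3 k + 1` with a prescribed number of prime factors, with and without multiplicity

There are `r₀` and `C` such that for all `r ≥ s ≥ r₀` with `r` even and (`s` even or `s + C ≤ r`) at
least `N / (log N) ^ C` of the integers `k ≤ N` are such that `k² + 3 k + 1` has exactly `r` prime
factors counted with multiplicity and exactly `s` different prime factors; moreover these prime
factors are at most `w` (which depends on `r` and `s` only) or at least `k ^ (1 / C)`.

For `r = s`: the value is squarefree with exactly `r` prime factors, for every large even `r`.  And
every large `s`, even or odd, is the number of different prime factors of many values.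

Proof.  The values are norms: `k² + 3 k + 1 = N(p) N(q)` for adjacent primitive vectors `p`, `q` of
`ℤ²` (determinant one), `N(x, y) = x² + 3 x y + y²`.

* A labelled configuration (`CfgS`): three groups of `n` vectors of the form `(1, y)`, `(1, y)`,
  `(2, y)` such that the `3 n²` determinants of vectors of different groups are squarefree, pairwise
  coprime, composed of primes `± 1` modulo `5`, and have prescribed numbers `L u v` of prime factors.
  It exists by the circle method (a system of linear forms of complexity one in primes, compared with
  Cramér's model with arbitrary powers of the logarithm as savings).
* Frames (`BasJ`): matrices of `SL₂(ℤ)`, in a fixed residue class, which map these vectors to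
  vectors whose norms are divisible by the determinants, have the same number `F` of small prime
  factors with multiplicity, and the same number `F'` of small prime factors without multiplicity; all
  squares stay in the norms, or exactly one prime of the determinant stays twice in the norms, which
  decides the parity of the number of different prime factors.  `F'` is arbitrary, but large, and so is
  `F ≥ F'`.
* A sieve of dimension `6 n` in the frames, with level of distribution from Kloosterman sums
  (`SvE`, `SfE`, `MnE`): there are many frames for which the norms have no prime factor between `w`
  and a small power of the size and on average `O(log n)` large prime factors.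
* Rich labels (`LabE`) and popular values of the number of large prime factors; two of the three
  popular values have the same parity (`PigE`).  So the label of a suitable pair is the right one, and
  the value of this pair has `2 F - 2` prime factors.
* The squares of large primes are excluded by Estermann's argument (`EstS`, `FnJ`).
-/

/-- **Main theorem.** -/
theorem Pool.Agent.Results.MP_d57abb_nt.ExactEven.result :
    ∃ r₀ C : ℕ, ∀ r s : ℕ, Even r → r₀ ≤ s → s ≤ r → (Even s ∨ s + C ≤ r) →
      ∃ w N₀ : ℕ, ∀ N : ℕ, N₀ ≤ N →
        (N : ℝ) / Real.log N ^ C ≤ ((Finset.Icc 1 N).filter (fun k =>
          ArithmeticFunction.cardFactors (k ^ 2 + 3 * k + 1) = r ∧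
          (k ^ 2 + 3 * k + 1).primeFactors.card = s ∧
          ∀ p ∈ (k ^ 2 + 3 * k + 1).primeFactors, p ≤ w ∨ k ≤ p ^ C)).card :=
  Pool.Agent.Lib.MP_d57abb_nt.EE.exact_joint
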