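import Pool.Agent.Lib.MP_d57abb_nt.GV.MasS
import Pool.Agent.Lib.MP_d57abb_nt.MR.ChE
import Pool.Agent.Lib.MP_d57abb_ntR.Bb
import Pool.Agent.Lib.MP_d57abb_ntW.F1
import Pool.Agent.Lib.MP_d57abb_ntW.E11

/-!
# Wirsing's theorem at `k² + 3 k + 1`

For `c > 1` let `T c k` be the number of divisors `d` of `f k = k² + 3 k + 1` with `k / c ≤ d ≤ c k`.

Let `g` be any multiplicative function with `|g| ≤ 1` whose values at the primes congruent to `1` or `4` modulo `5` (the primes
which divide values of `f`) are in the convex hull of the `q`-th roots of unity, for one `q`; for `q = 2` these are all real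
multiplicative functions with `|g| ≤ 1`. Then `g (f k)` has a mean value with the weights `T c k` in every residue class
`f k ≡ r` modulo `D`, of the form `m D r * log c`: in windows (logarithmic weights) with an error `ε log (X / A) + K`, and the
natural means tend to `m D r * log c` as `X` tends to infinity outside one set of logarithmic density zero. If `g` does not
pretend to be a Dirichlet character at the primes `1, 4` modulo `5` (in the sense of Wirsing and Halász: the sum of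
`(1 - Re (g p * conj (ψ p))) / p` diverges for every `ψ`), for instance for the Möbius and the Liouville function, all `m D r` are
zero; if it does, the natural means converge at all scales. The weights have the density `κ * log c`, `κ > 0`, in every residue
class of `k`. For the unweighted mean of `g (f k)` the theorem is false, since `g` is free at the primes larger than `k ^ (1 + δ)`.

Proof. `f k = N(v) N(w)` for adjacent Farey vectors `v, w`, with the norm form of the field of `√5`.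
Roots of unity, not pretentious, completely multiplicative: entropy decrement along sets of primes of positive relative density on
which `g²` is constant (pigeonhole at every scale, `GT/Lab`), in windows of bounded length of the scales; the average over such a
set of primes of a bilinear form in the determinants is compared with a function that is constant on the residue classes modulo
`w!` in short intervals (`KC/`, a fourth moment argument with characters); Matomaki-Radziwill for general multiplicative functions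
in thin sectors (`GA/`). Characters: `GT/Dich`, `GT/H90`; residue classes: `GV/Cls`; multiplicative functions: `GV/MulM`.
Convex hull (`ntR`): `g` is the mean of random functions `G` with independent values `G p` at the primes `1, 4` modulo `5`, roots
of unity with mean `g p`; by Chebyshev almost every `G` is not pretentious, and the theorem for `G` is integrated.
Pretentious (`ntW`): density theorem for the weights in residue classes of `k` (Kloosterman sums), and truncation of `g` to small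
primes; the weights of the `k` with `p ∣ f k` are at most `C X / p` for every prime `p`.
-/

open Finset Filter Topology

open Classical in
theorem Pool.Agent.Results.MP_d57abb_nt.MeanValues.result (T : ℝ → ℕ → ℕ)
    (hT : ∀ (c : ℝ) (k : ℕ), T c k = ((k ^ 2 + 3 * k + 1).divisors.filter
        (fun d : ℕ => (k : ℝ) ≤ c * d ∧ (d : ℝ) ≤ c * k)).card)
    (q : ℕ) (g : ℕ → ℂ) (hq : 0 < q) (hmul : ∀ a b : ℕ, 0 < a → 0 < b → a.Coprime b → g (a * b) = g a * g b)
    (hle : ∀ n : ℕ, 0 < n → ‖g n‖ ≤ 1)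
    (hhull : ∀ p : ℕ, p.Prime → (p % 5 = 1 ∨ p % 5 = 4) → g p ∈ convexHull ℝ {z : ℂ | z ^ q = 1}) :
    (∃ m : ℕ → ℕ → ℂ,
      -- windows
      (∀ D : ℕ, 0 < D → ∀ r : ℕ, ∀ c : ℝ, 1 < c → ∀ ε : ℝ, 0 < ε → ∃ K : ℝ, ∀ A X : ℕ, 1 ≤ A → A ≤ X →
        ‖∑ k ∈ (Ioc A X).filter (fun k => k ^ 2 + 3 * k + 1 ≡ r [MOD D]),
          ((T c k / k : ℝ) : ℂ) * g (k ^ 2 + 3 * k + 1) - m D r * Real.log c * Real.log (X / A)‖ ≤
            ε * Real.log (X / A) + K) ∧
      -- almost all scales
      (∃ E : Set ℕ, Tendsto (fun N : ℕ => (∑ X ∈ (Icc 1 N).filter (fun X => X ∈ E), (1 : ℝ) / X) / Real.log N)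
          atTop (𝓝 0) ∧
        ∀ c : ℝ, 1 < c → ∀ D : ℕ, 0 < D → ∀ r : ℕ,
          Tendsto (fun X : ℕ => (∑ k ∈ (Icc 1 X).filter (fun k => k ^ 2 + 3 * k + 1 ≡ r [MOD D]),
            (T c k : ℂ) * g (k ^ 2 + 3 * k + 1)) / X) (atTop ⊓ 𝓟 Eᶜ) (𝓝 (m D r * Real.log c))) ∧
      -- all scales, if `g` pretends to be a Dirichlet character
      ((∃ W : ℕ, 0 < W ∧ ∃ ψ : DirichletCharacter ℂ W,
          Summable (fun p : ℕ => if p.Prime ∧ (p % 5 = 1 ∨ p % 5 = 4) then
            (1 - (g p * (starRingEnd ℂ) (ψ p)).re) / (p : ℝ) else 0)) →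
        ∀ c : ℝ, 1 < c → ∀ D : ℕ, 0 < D → ∀ r : ℕ,
          Tendsto (fun X : ℕ => (∑ k ∈ (Icc 1 X).filter (fun k => k ^ 2 + 3 * k + 1 ≡ r [MOD D]),
            (T c k : ℂ) * g (k ^ 2 + 3 * k + 1)) / X) atTop (𝓝 (m D r * Real.log c))) ∧
      -- mean zero, if it does not
      ((∀ W : ℕ, 0 < W → ∀ ψ : DirichletCharacter ℂ W,
          ¬ Summable (fun p : ℕ => if p.Prime ∧ (p % 5 = 1 ∨ p % 5 = 4) then
            (1 - (g p * (starRingEnd ℂ) (ψ p)).re) / (p : ℝ) else 0)) → ∀ D r : ℕ, m D r = 0)) ∧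
    -- the density of the weights
    (∀ D : ℕ, 0 < D → ∀ a : ℕ, ∃ κ : ℝ, 0 < κ ∧ ∀ c : ℝ, 1 < c →
      Tendsto (fun X : ℕ => (∑ k ∈ (Icc 1 X).filter (fun k => k ≡ a [MOD D]), (T c k : ℝ)) / X) atTop
        (𝓝 (κ * Real.log c))) ∧
    -- the weights of the values `f k = f k₀ * m` with `m` squarefree and `1` modulo `D`
    ∀ c : ℝ, 32 ≤ c → ∀ D : ℕ, 0 < D → ∀ k₀ : ℕ,
      (∃ a : ℝ, 0 < a ∧ ∃ K : ℝ, ∀ A X : ℕ, 1 ≤ A → A ≤ X → a * Real.log (X / A) - K ≤
        ∑ k ∈ (Ioc A X).filter (fun k => ∃ m : ℕ, k ^ 2 + 3 * k + 1 = (k₀ ^ 2 + 3 * k₀ + 1) * m ∧ Squarefree m ∧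
          m ≡ 1 [MOD D]), (T c k : ℝ) / k) ∧
      ∃ c₀ : ℝ, 0 < c₀ ∧ ∃ N₀ : ℕ, ∀ N : ℕ, N₀ ≤ N → c₀ * N ≤
        ∑ k ∈ (Icc 1 N).filter (fun k => ∃ m : ℕ, k ^ 2 + 3 * k + 1 = (k₀ ^ 2 + 3 * k₀ + 1) * m ∧ Squarefree m ∧
          m ≡ 1 [MOD D]), (T c k : ℝ) := by
  obtain rfl : T = Pool.Agent.Lib.MP_d57abb_nt.GA.TZ.tc := by
    funext c k
    exact hT c k
  obtain ⟨m, h1, ⟨E, hE, h2⟩, h3, h4⟩ := Pool.Agent.Lib.MP_d57abb_ntW.wirsing hq
    (fun G a1 a2 a3 a4 => Pool.Agent.Lib.MP_d57abb_ntR.bb hq a1 a2 a3 a4) hmul hle hhull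
  exact ⟨⟨m, h1, ⟨E, hE, h2⟩, h3, h4⟩, fun D hD a => Pool.Agent.Lib.MP_d57abb_ntW.dens_pos D hD a,
    fun c hc D hD0 k₀ => Pool.Agent.Lib.MP_d57abb_nt.GV.mass_sq hc hD0 k₀⟩

namespace Pool.Agent.Lib.MP_d57abb_ntW

/-- Case `q = 2`: real functions. -/
theorem real_mem {x : ℝ} (hx : |x| ≤ 1) : (x : ℂ) ∈ convexHull ℝ {z : ℂ | z ^ 2 = 1} := by
  obtain ⟨h1, h2⟩ := abs_le.1 hx
  have h3 := (convex_convexHull ℝ {z : ℂ | z ^ 2 = 1}) (subset_convexHull ℝ _ (show (1 : ℂ) ∈ {z : ℂ | z ^ 2 = 1} by simp))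
    (subset_convexHull ℝ _ (show (-1 : ℂ) ∈ {z : ℂ | z ^ 2 = 1} by simp)) (show (0 : ℝ) ≤ (1 + x) / 2 by linarith)
    (show (0 : ℝ) ≤ (1 - x) / 2 by linarith) (by ring)
  have h4 : ((1 + x) / 2) • (1 : ℂ) + ((1 - x) / 2) • (-1 : ℂ) = (x : ℂ) := by
    rw [Complex.real_smul, Complex.real_smul]
    push_cast
    ring
  rwa [h4] at h3

open Classical in
/-- The Möbius function at `f k`, in residue classes. -/
theorem moebius_mean (T : ℝ → ℕ → ℕ)
    (hT : ∀ (c : ℝ) (k : ℕ), T c k = ((k ^ 2 + 3 * k + 1).divisors.filter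
        (fun d : ℕ => (k : ℝ) ≤ c * d ∧ (d : ℝ) ≤ c * k)).card) :
    (∀ D : ℕ, 0 < D → ∀ r : ℕ, ∀ c : ℝ, 1 < c → ∀ ε : ℝ, 0 < ε → ∃ K : ℝ, ∀ A X : ℕ, 1 ≤ A → A ≤ X →
      ‖∑ k ∈ (Ioc A X).filter (fun k => k ^ 2 + 3 * k + 1 ≡ r [MOD D]),
        ((T c k / k : ℝ) : ℂ) * ((ArithmeticFunction.moebius (k ^ 2 + 3 * k + 1) : ℤ) : ℂ)‖ ≤ ε * Real.log (X / A) + K) ∧
    (∃ E : Set ℕ, Tendsto (fun N : ℕ => (∑ X ∈ (Icc 1 N).filter (fun X => X ∈ E), (1 : ℝ) / X) / Real.log N)
        atTop (𝓝 0) ∧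
      ∀ c : ℝ, 1 < c → ∀ D : ℕ, 0 < D → ∀ r : ℕ,
        Tendsto (fun X : ℕ => (∑ k ∈ (Icc 1 X).filter (fun k => k ^ 2 + 3 * k + 1 ≡ r [MOD D]),
          (T c k : ℂ) * ((ArithmeticFunction.moebius (k ^ 2 + 3 * k + 1) : ℤ) : ℂ)) / X) (atTop ⊓ 𝓟 Eᶜ) (𝓝 0)) := by
  obtain ⟨⟨m, h1, ⟨E, hE, h2⟩, -, h4⟩, -⟩ := Pool.Agent.Results.MP_d57abb_nt.MeanValues.result T hT 2
    (fun n => ((ArithmeticFunction.moebius n : ℤ) : ℂ)) (by norm_num) (fun a b ha hb hab => by
      rw [ArithmeticFunction.isMultiplicative_moebius.map_mul_of_coprime hab]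
      push_cast
      rfl) (fun n _ => by
      rw [Complex.norm_intCast]
      exact_mod_cast ArithmeticFunction.abs_moebius_le_one) (fun p hp _ => subset_convexHull ℝ _ (by
      change ((ArithmeticFunction.moebius p : ℤ) : ℂ) ^ 2 = 1
      rw [ArithmeticFunction.moebius_apply_prime hp]
      norm_num))
  have h0 : ∀ D r : ℕ, m D r = 0 := h4 (fun W hW ψ hs => by
      have : NeZero (5 * W) := ⟨by omega⟩
      refine Pool.Agent.Lib.MP_d57abb_nt.MR.not_summable_class (W := 5 * W) (c := 1) isUnit_one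
        (Summable.of_nonneg_of_le (fun p => ?_) (fun p => ?_) hs)
      · split_ifs
        · positivity
        · exact le_rfl
      · by_cases hp : p.Prime ∧ (p : ZMod (5 * W)) = 1
        · have h5W : p ≡ 1 [MOD 5 * W] := (ZMod.natCast_eq_natCast_iff p 1 (5 * W)).1 (by rw [Nat.cast_one]; exact hp.2)
          have h5 : p % 5 = 1 := h5W.of_mul_right W
          have hW1 : ((p : ℕ) : ZMod W) = 1 := by
            have h6 : p ≡ 1 [MOD W] := h5W.of_mul_left 5
            have h7 := (ZMod.natCast_eq_natCast_iff p 1 W).2 h6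
            rwa [Nat.cast_one] at h7
          rw [if_pos hp, if_pos ⟨hp.1, Or.inl h5⟩, hW1, map_one, map_one, mul_one,
            ArithmeticFunction.moebius_apply_prime hp.1]
          refine div_le_div_of_nonneg_right ?_ (Nat.cast_nonneg p)
          norm_num
        · rw [if_neg hp]
          split_ifs with h9
          · refine div_nonneg ?_ (Nat.cast_nonneg p)
            have h10 : ‖((ArithmeticFunction.moebius p : ℤ) : ℂ) * (starRingEnd ℂ) (ψ p)‖ ≤ 1 := by
              rw [norm_mul, RCLike.norm_conj, ArithmeticFunction.moebius_apply_prime h9.1]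
              have h11 := ψ.norm_le_one (p : ZMod W)
              have h12 : ‖(((-1 : ℤ)) : ℂ)‖ = 1 := by norm_num
              rw [h12, one_mul]
              exact h11
            have h13 := (Complex.re_le_norm _).trans h10
            linarith
          · exact le_rfl)
  refine ⟨fun D hD r c hc ε hε => ?_, E, hE, fun c hc D hD r => ?_⟩
  · obtain ⟨K, hK⟩ := h1 D hD r c hc ε hε
    refine ⟨K, fun A X hA hX => ?_⟩
    have h5 := hK A X hA hX
    rw [h0, zero_mul, zero_mul, sub_zero] at h5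
    exact h5
  · have h5 := h2 c hc D hD r
    rw [h0, zero_mul] at h5
    exact h5

end Pool.Agent.Lib.MP_d57abb_ntW
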