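import Pool.Agent.Lib.MP_d57abb_nt.GV.LawS
import Pool.Agent.Lib.MP_d57abb_nt.GV.Ext
import Pool.Agent.Lib.MP_d57abb_nt.GT.Dich
import Pool.Agent.Lib.MP_d57abb_nt.MR.ChE
import Pool.Agent.Lib.MP_d57abb_ntW.F3

/-!
# The values of additive functions in finite abelian groups at `k² + 3 k + 1`

Let `f k = k² + 3 k + 1` and let `h` be any additive function (`h (a b) = h a + h b` for coprime `a, b`) with values in a finite
abelian group `H`; for instance the signs of any number of multiplicative functions with values `1` and `-1`, the values of any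
number of Dirichlet characters, and `ω` modulo `m`, together. For `c > 1` let `T c k` be the number of divisors `d` of `f k` with
`k / c ≤ d ≤ c k`.
Let `H₀` be the subgroup of the `x` in `H` with `ξ x = 1` for all characters `ξ` of `H` for which `ξ h` agrees with a Dirichlet
character at most of the primes congruent to `1` or `4` modulo `5`.

* The law: for all `D`, `r` and all `a` in `H` the set of the `k` with `f k ≡ r` modulo `D` and `h (f k) = a` has a density with the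
  weights `T c`, equal to `μ D r a * log c` for all `c > 1`, in windows and at almost all scales. It is positive if and only if the
  set is not empty, and `μ D r` is constant on the cosets of `H₀`.
* For every `k₀`, every `D` and every `x` in `H₀` there are, among the `k ≤ X`, at least `κ X / (log X)^0.7` with `f k = f k₀ * m`,
  `m` squarefree, `m ≡ 1` modulo `D` and `h m = x`, for all large `X`; and these `k` are a positive proportion with the weights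
  `T 32 k`.
If `f k₀` divides `D` then `m` is prime to `f k₀`, so that `h (f k) = h (f k₀) + x`. For `k₀ = 0` the values `f k = m` are
squarefree.

Proof of the second part. The characters `ξ` of `H` for which `ξ (h p)` agrees with a character of the residue classes of the ring
of integers of the field of `√5` at most primes are a group `S` (`GV/Mul`); they agree with Dirichlet characters at most primes
(`GT/Dich`).
* They are treated together: cells of Farey vectors of level `A`; in a positive proportion of the cells there are frames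
  with vectors at whose norms all these `ξ h` have the value `1` and the value `ξ (h (f k₀))`, and whose norms have no common
  factor and no square factor prime to `D f k₀` (`GV/Few`, `GV/Val`, `GV/FrS`), by first and second moments over pairs of adjacent
  vectors in residue classes (`GV/LawU`, `GV/TotB`, `GV/Big`, `GV/RelA`, `GV/RelB`).
* The squares of large primes (`GV/TailS`): Kloosterman sums for a common prime factor of two adjacent norms, uniformly in the prime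
  (`GV/KlU`, `GV/PrSq`); for very large primes the equation of Pell (`GV/Pell`, `GV/BigL`).
* For the other characters the weighted sums are small in all windows: entropy decrement along sets of primes of positive
  relative density on which `(ξ h)²` is constant, and Matomaki-Radziwill in thin sectors (`KC/`, `GA/`, `GT/NPx`).
* Orthogonality of the characters in windows and in residue classes (`GV/WinP`, `GV/WinC`, `GV/WinM`, `GV/LawS`). From weights to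
  numbers (`GV/CntF`): frames whose norms have few divisors (`GV/SqT`), and a mean value of the number of pairs of divisors of
  almost equal size over the integers without prime factors congruent to `2` or `3` modulo `5` (`GV/SqA`, `GV/SqB`).

Proof of the first part (folder `MP_d57abb_ntW`). Every `ξ h` has a mean value at `f k`. If `ξ h` does not agree with a Dirichlet
character at most primes, it is zero. Else `ξ h` is approximated by periodic functions (`E1`-`E9`: the mass of the `k` for which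
`f k` is divisible by `p`, by a large square or by a large power of a small prime), and the weights have a density in every residue
class modulo `M` (`D1`-`D12`: cells, the law of adjacent Farey vectors modulo `M` in boxes with Kloosterman sums, Riemann sums;
the density is `K log c`). Orthogonality in `H` (`F2`) and the second part, for the support (`F3`).
-/

open Finset Filter Topology

open Classical in
/-- Numbers. -/
theorem Pool.Agent.Lib.MP_d57abb_nt.GV.law_numbers (T : ℝ → ℕ → ℕ)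
    (hT : ∀ (c : ℝ) (k : ℕ), T c k = ((k ^ 2 + 3 * k + 1).divisors.filter
        (fun d : ℕ => (k : ℝ) ≤ c * d ∧ (d : ℝ) ≤ c * k)).card)
    {H : Type*} [AddCommGroup H] [Finite H] (h : ℕ → H)
    (hadd : ∀ a b : ℕ, 0 < a → 0 < b → a.Coprime b → h (a * b) = h a + h b) (D : ℕ) (hD : 0 < D) (k₀ : ℕ) :
    ∃ κ : ℝ, 0 < κ ∧ ∃ X₀ : ℕ, ∀ x : H,
      (∀ ξ : AddChar H ℂ, (∃ (W : ℕ) (ψ : DirichletCharacter ℂ W), 0 < W ∧ Summable (fun p : ℕ =>
        if (p.Prime ∧ (p % 5 = 1 ∨ p % 5 = 4)) ∧ ξ (h p) ≠ ψ p then 1 / (p : ℝ) else 0)) → ξ x = 1) →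
      ∀ X : ℕ, X₀ ≤ X →
      κ * X ≤ ∑ k ∈ (Icc 1 X).filter (fun k => ∃ m : ℕ, k ^ 2 + 3 * k + 1 = (k₀ ^ 2 + 3 * k₀ + 1) * m ∧ Squarefree m ∧
        m ≡ 1 [MOD D] ∧ h m = x), (T 32 k : ℝ) ∧
      κ * X / (Real.log X) ^ (7 / 10 : ℝ) ≤ (((Icc 1 X).filter (fun k => ∃ m : ℕ,
        k ^ 2 + 3 * k + 1 = (k₀ ^ 2 + 3 * k₀ + 1) * m ∧ Squarefree m ∧ m ≡ 1 [MOD D] ∧ h m = x)).card : ℝ) := by
  have hTt : ∀ c k, T c k = Pool.Agent.Lib.MP_d57abb_nt.GA.TZ.tc c k := fun c k => hT c k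
  simp only [hTt]
  have := Fintype.ofFinite H
  obtain ⟨h₁, e1, e2, e3⟩ := Pool.Agent.Lib.MP_d57abb_nt.GV.ext_add h hadd
  obtain ⟨κ, hκ, X₀, hX₀⟩ := Pool.Agent.Lib.MP_d57abb_nt.GV.lawS e1 hD k₀
  refine ⟨κ, hκ, X₀, fun x hx X hX => ?_⟩
  have hset : (Icc 1 X).filter (fun k => ∃ m : ℕ, k ^ 2 + 3 * k + 1 = (k₀ ^ 2 + 3 * k₀ + 1) * m ∧ Squarefree m ∧
        m ≡ 1 [MOD D] ∧ h m = x) = (Icc 1 X).filter (fun k => ∃ m : ℕ, k ^ 2 + 3 * k + 1 = (k₀ ^ 2 + 3 * k₀ + 1) * m ∧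
        Squarefree m ∧ m ≡ 1 [MOD D] ∧ h₁ m = x) := by
    refine Finset.filter_congr fun k _ => exists_congr fun m => and_congr_right fun _ => and_congr_right fun hm => ?_
    rw [e3 m hm]
  rw [hset]
  refine hX₀ x (fun ξ hξ => hx ξ ?_) X hX
  by_contra hcon
  refine hξ (Pool.Agent.Lib.MP_d57abb_nt.GT.npx_of_dir fun W hW ψ hs => hcon ⟨W, ψ, hW, hs.congr fun p => ?_⟩)
  by_cases hp : p.Prime
  · simp only [e2 p hp]
  · simp only [hp, false_and, if_false]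

open Classical in
theorem Pool.Agent.Results.MP_d57abb_nt.ValueLaw.result (T : ℝ → ℕ → ℕ)
    (hT : ∀ (c : ℝ) (k : ℕ), T c k = ((k ^ 2 + 3 * k + 1).divisors.filter
        (fun d : ℕ => (k : ℝ) ≤ c * d ∧ (d : ℝ) ≤ c * k)).card)
    {H : Type*} [AddCommGroup H] [Finite H] (h : ℕ → H)
    (hadd : ∀ a b : ℕ, 0 < a → 0 < b → a.Coprime b → h (a * b) = h a + h b) (H₀ : Set H)
    (hH₀ : H₀ = {x | ∀ ξ : AddChar H ℂ, (∃ (W : ℕ) (ψ : DirichletCharacter ℂ W), 0 < W ∧ Summable (fun p : ℕ =>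
        if (p.Prime ∧ (p % 5 = 1 ∨ p % 5 = 4)) ∧ ξ (h p) ≠ ψ p then 1 / (p : ℝ) else 0)) → ξ x = 1}) :
    -- the law
    (∃ μ : ℕ → ℕ → H → ℝ,
      -- support, cosets of `H₀`
      (∀ D : ℕ, 0 < D → ∀ (r : ℕ) (a : H), 0 ≤ μ D r a ∧
        (0 < μ D r a ↔ ∃ k : ℕ, k ^ 2 + 3 * k + 1 ≡ r [MOD D] ∧ h (k ^ 2 + 3 * k + 1) = a) ∧
        ∀ x ∈ H₀, μ D r (a + x) = μ D r a) ∧
      -- windows
      (∀ D : ℕ, 0 < D → ∀ (r : ℕ) (a : H), ∀ c : ℝ, 1 < c → ∀ ε : ℝ, 0 < ε → ∃ K : ℝ, ∀ B X : ℕ, 1 ≤ B → B ≤ X →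
        |∑ k ∈ (Ioc B X).filter (fun k => k ^ 2 + 3 * k + 1 ≡ r [MOD D] ∧ h (k ^ 2 + 3 * k + 1) = a), (T c k : ℝ) / k -
          μ D r a * Real.log c * Real.log (X / B)| ≤ ε * Real.log (X / B) + K) ∧
      -- almost all scales
      ∃ E : Set ℕ, Tendsto (fun N : ℕ => (∑ X ∈ (Icc 1 N).filter (fun X => X ∈ E), (1 : ℝ) / X) / Real.log N)
          atTop (𝓝 0) ∧
        ∀ c : ℝ, 1 < c → ∀ D : ℕ, 0 < D → ∀ (r : ℕ) (a : H),
          Tendsto (fun X : ℕ => (∑ k ∈ (Icc 1 X).filter (fun k => k ^ 2 + 3 * k + 1 ≡ r [MOD D] ∧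
            h (k ^ 2 + 3 * k + 1) = a), (T c k : ℝ)) / X) (atTop ⊓ 𝓟 Eᶜ) (𝓝 (μ D r a * Real.log c))) ∧
    -- numbers
    ∀ D : ℕ, 0 < D → ∀ k₀ : ℕ, ∃ κ : ℝ, 0 < κ ∧ ∃ X₀ : ℕ, ∀ x ∈ H₀, ∀ X : ℕ, X₀ ≤ X →
      κ * X ≤ ∑ k ∈ (Icc 1 X).filter (fun k => ∃ m : ℕ, k ^ 2 + 3 * k + 1 = (k₀ ^ 2 + 3 * k₀ + 1) * m ∧ Squarefree m ∧
        m ≡ 1 [MOD D] ∧ h m = x), (T 32 k : ℝ) ∧
      κ * X / (Real.log X) ^ (7 / 10 : ℝ) ≤ (((Icc 1 X).filter (fun k => ∃ m : ℕ,
        k ^ 2 + 3 * k + 1 = (k₀ ^ 2 + 3 * k₀ + 1) * m ∧ Squarefree m ∧ m ≡ 1 [MOD D] ∧ h m = x)).card : ℝ) := by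
  have hTt : ∀ c k, T c k = Pool.Agent.Lib.MP_d57abb_nt.GA.TZ.tc c k := fun c k => hT c k
  subst hH₀
  refine ⟨?_, fun D hD k₀ => ?_⟩
  · simp only [hTt]
    obtain ⟨μ, h1, h2, h3, E, hE, h4⟩ := Pool.Agent.Lib.MP_d57abb_ntW.law hadd
    exact ⟨μ, fun D hD r a => ⟨(h1 D hD r a).1, (h1 D hD r a).2, fun x hx => h2 x hx D r a⟩, h3, E, hE, h4⟩
  · obtain ⟨κ, hκ, X₀, h1⟩ := Pool.Agent.Lib.MP_d57abb_nt.GV.law_numbers T hT h hadd D hD k₀
    exact ⟨κ, hκ, X₀, fun x hx X hX => h1 x hx X hX⟩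

namespace Pool.Agent.Lib.MP_d57abb_nt.GV

open ArithmeticFunction (cardFactors)

open Classical in
/-- Uniformly in `k₀`: with constants which depend only on `h` and `D`, every element of `h (f k₀) + H₀` is the value `h (f k)` for
at least `κ X / (log X)^0.7` of the `k ≤ X` with `f k ≡ f k₀` modulo `D`. -/
theorem values_uniform {H : Type*} [AddCommGroup H] [Finite H] (h : ℕ → H)
    (hadd : ∀ a b : ℕ, 0 < a → 0 < b → a.Coprime b → h (a * b) = h a + h b) (D : ℕ) (hD : 0 < D) :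
    ∃ κ : ℝ, 0 < κ ∧ ∃ X₀ : ℕ, ∀ (k₀ : ℕ) (x : H),
      (∀ ξ : AddChar H ℂ, (∃ (W : ℕ) (ψ : DirichletCharacter ℂ W), 0 < W ∧ Summable (fun p : ℕ =>
        if (p.Prime ∧ (p % 5 = 1 ∨ p % 5 = 4)) ∧ ξ (h p) ≠ ψ p then 1 / (p : ℝ) else 0)) → ξ x = 1) →
      ∀ X : ℕ, X₀ ≤ X →
      κ * X / (Real.log X) ^ (7 / 10 : ℝ) ≤ (((Icc 1 X).filter (fun k => k ^ 2 + 3 * k + 1 ≡ k₀ ^ 2 + 3 * k₀ + 1 [MOD D] ∧
        h (k ^ 2 + 3 * k + 1) = h (k₀ ^ 2 + 3 * k₀ + 1) + x)).card : ℝ) := by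
  have : NeZero D := ⟨hD.ne'⟩
  have := Fintype.ofFinite H
  obtain ⟨P, hP⟩ : ∃ P : H → Prop, ∀ x, P x ↔ ∀ ξ : AddChar H ℂ, (∃ (W : ℕ) (ψ : DirichletCharacter ℂ W), 0 < W ∧
      Summable (fun p : ℕ => if (p.Prime ∧ (p % 5 = 1 ∨ p % 5 = 4)) ∧ ξ (h p) ≠ ψ p then 1 / (p : ℝ) else 0)) → ξ x = 1 :=
    ⟨_, fun _ => Iff.rfl⟩
  have h1 : ∀ y : ZMod D × H, ∃ κ : ℝ, 0 < κ ∧ ∃ X₀ : ℕ,
      (∃ k₀ : ℕ, (((k₀ ^ 2 + 3 * k₀ + 1 : ℕ) : ZMod D), h (k₀ ^ 2 + 3 * k₀ + 1)) = y) → ∀ x : H, P x → ∀ X : ℕ, X₀ ≤ X →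
        κ * X / (Real.log X) ^ (7 / 10 : ℝ) ≤ (((Icc 1 X).filter
          (fun k => ((k ^ 2 + 3 * k + 1 : ℕ) : ZMod D) = y.1 ∧ h (k ^ 2 + 3 * k + 1) = y.2 + x)).card : ℝ) := by
    intro y
    by_cases hy : ∃ k₀ : ℕ, (((k₀ ^ 2 + 3 * k₀ + 1 : ℕ) : ZMod D), h (k₀ ^ 2 + 3 * k₀ + 1)) = y
    · obtain ⟨k₀, hk⟩ := hy
      obtain ⟨κ, hκ, X₀, hX₀⟩ := law_numbers _ (fun _ _ => rfl) h hadd
        (D * (k₀ ^ 2 + 3 * k₀ + 1)) (Nat.mul_pos hD (by positivity)) k₀
      refine ⟨κ, hκ, X₀, fun _ x hx X hX => ((hX₀ x ((hP x).1 hx) X hX).2).trans (Nat.cast_le.2 (Finset.card_le_card ?_))⟩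
      intro k hk2
      simp only [mem_filter] at hk2 ⊢
      obtain ⟨a1, m, a2, a3, a4, a5⟩ := hk2
      have hc : (k₀ ^ 2 + 3 * k₀ + 1).Coprime m := by
        have b1 : m ≡ 1 [MOD k₀ ^ 2 + 3 * k₀ + 1] := a4.of_mul_left D
        have b2 : Nat.gcd m (k₀ ^ 2 + 3 * k₀ + 1) = Nat.gcd 1 (k₀ ^ 2 + 3 * k₀ + 1) := b1.gcd_eq
        rw [Nat.gcd_one_left] at b2
        exact (Nat.coprime_iff_gcd_eq_one.2 b2).symm
      refine ⟨a1, ?_, ?_⟩
      · rw [← hk]
        show ((k ^ 2 + 3 * k + 1 : ℕ) : ZMod D) = ((k₀ ^ 2 + 3 * k₀ + 1 : ℕ) : ZMod D)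
        have b1 : m ≡ 1 [MOD D] := a4.of_mul_right _
        rw [ZMod.natCast_eq_natCast_iff, a2]
        have b2 := Nat.ModEq.mul_left (k₀ ^ 2 + 3 * k₀ + 1) b1
        rwa [mul_one] at b2
      · rw [← hk]
        show h (k ^ 2 + 3 * k + 1) = h (k₀ ^ 2 + 3 * k₀ + 1) + x
        rw [a2, hadd _ _ (by positivity) (Nat.pos_of_ne_zero a3.ne_zero) hc, a5]
    · exact ⟨1, one_pos, 0, fun h2 => absurd h2 hy⟩
  choose κ hκ X₀ hX₀ using h1
  obtain ⟨x₀, -, hmin⟩ := Finset.exists_min_image (univ : Finset (ZMod D × H)) κ ⟨0, mem_univ _⟩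
  refine ⟨κ x₀, hκ x₀, (univ : Finset (ZMod D × H)).sup X₀ + 1, fun k₀ x hx X hX' => ?_⟩
  obtain ⟨y, hy⟩ : ∃ y : ZMod D × H, y = (((k₀ ^ 2 + 3 * k₀ + 1 : ℕ) : ZMod D), h (k₀ ^ 2 + 3 * k₀ + 1)) := ⟨_, rfl⟩
  have hX : X₀ y ≤ X := (Finset.le_sup (mem_univ y)).trans (by omega)
  have hlog : (0 : ℝ) ≤ Real.log X := Real.log_nonneg (by exact_mod_cast (by omega : 1 ≤ X))
  have h2 := hX₀ y ⟨k₀, hy.symm⟩ x ((hP x).2 hx) X hX
  have h5 : κ x₀ * X ≤ κ y * X := mul_le_mul_of_nonneg_right (hmin y (mem_univ y)) (Nat.cast_nonneg _)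
  have e : (Icc 1 X).filter (fun k => k ^ 2 + 3 * k + 1 ≡ k₀ ^ 2 + 3 * k₀ + 1 [MOD D] ∧
      h (k ^ 2 + 3 * k + 1) = h (k₀ ^ 2 + 3 * k₀ + 1) + x) =
      (Icc 1 X).filter (fun k => ((k ^ 2 + 3 * k + 1 : ℕ) : ZMod D) = y.1 ∧ h (k ^ 2 + 3 * k + 1) = y.2 + x) := by
    refine Finset.filter_congr fun k _ => ?_
    rw [hy]
    exact and_congr_left fun _ => (ZMod.natCast_eq_natCast_iff _ _ _).symm
  rw [e]
  exact (div_le_div_of_nonneg_right h5 (Real.rpow_nonneg hlog _)).trans h2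

open Classical in
/-- Values coming from the primes: let `V` be the set of the `y` such that for every `W` the sum of `1 / p` over the primes
`p ≡ 1` modulo `W` with `h p = y` diverges. Then every element of the subgroup generated by `V` is a value `h m`. -/
theorem values_of_primes {H : Type*} [AddCommGroup H] [Finite H] (h : ℕ → H)
    (hadd : ∀ a b : ℕ, 0 < a → 0 < b → a.Coprime b → h (a * b) = h a + h b) (D : ℕ) (hD : 0 < D) (k₀ : ℕ) :
    ∃ κ : ℝ, 0 < κ ∧ ∃ X₀ : ℕ, ∀ x : H, x ∈ AddSubgroup.closure {y : H | ∀ W : ℕ, 0 < W →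
        ¬ Summable (fun p : ℕ => if (p.Prime ∧ p ≡ 1 [MOD W]) ∧ h p = y then 1 / (p : ℝ) else 0)} →
      ∀ X : ℕ, X₀ ≤ X → κ * X / (Real.log X) ^ (7 / 10 : ℝ) ≤ (((Icc 1 X).filter (fun k => ∃ m : ℕ,
        k ^ 2 + 3 * k + 1 = (k₀ ^ 2 + 3 * k₀ + 1) * m ∧ Squarefree m ∧ m ≡ 1 [MOD D] ∧ h m = x)).card : ℝ) := by
  obtain ⟨κ, hκ, X₀, hX₀⟩ := law_numbers _ (fun _ _ => rfl) h hadd D hD k₀
  refine ⟨κ, hκ, X₀, fun x hx X hX => (hX₀ x ?_ X hX).2⟩
  rintro ξ ⟨W, ψ, hW, hs⟩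
  induction hx using AddSubgroup.closure_induction with
  | mem y hy =>
    by_contra hne
    refine hy (5 * W) (by omega) (Summable.of_nonneg_of_le (fun p => ?_) (fun p => ?_) hs)
    · split_ifs
      · positivity
      · exact le_rfl
    · by_cases hp : (p.Prime ∧ p ≡ 1 [MOD 5 * W]) ∧ h p = y
      · have h5 : p % 5 = 1 := hp.1.2.of_mul_right W
        have hW1 : ((p : ℕ) : ZMod W) = 1 := by
          have h6 : p ≡ 1 [MOD W] := hp.1.2.of_mul_left 5
          have h7 := (ZMod.natCast_eq_natCast_iff p 1 W).2 h6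
          rwa [Nat.cast_one] at h7
        rw [if_pos hp, if_pos ⟨⟨hp.1.1, Or.inl h5⟩, by rw [hp.2, hW1, map_one]; exact hne⟩]
      · rw [if_neg hp]
        split_ifs
        · positivity
        · exact le_rfl
  | zero => exact AddChar.map_zero_eq_one ξ
  | add y z _ _ hy hz => rw [AddChar.map_add_eq_mul, hy, hz, one_mul]
  | neg y _ hy => rw [AddChar.map_neg_eq_inv, hy, inv_one]

open Classical in
/-- Sign patterns: let `g i`, `i < n`, be multiplicative functions with values `1` and `-1`. There are, among the `k ≤ X`, at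
least `κ X / (log X)^0.7` with `f k = f k₀ * u`, `u` squarefree, `u ≡ 1` modulo `D`, `g i u = 1` for all `i` and
`Ω u ≡ 2 j` modulo `m`. -/
theorem sign_patterns {n : ℕ} (g : Fin n → ℕ → ℤ)
    (hmul : ∀ i, ∀ a b : ℕ, 0 < a → 0 < b → a.Coprime b → g i (a * b) = g i a * g i b)
    (hval : ∀ i, ∀ a : ℕ, 0 < a → g i a = 1 ∨ g i a = -1) (m : ℕ) (hm : 0 < m) (D : ℕ) (hD : 0 < D) (k₀ : ℕ) :
    ∃ κ : ℝ, 0 < κ ∧ ∃ X₀ : ℕ, ∀ j X : ℕ, X₀ ≤ X →
      κ * X / (Real.log X) ^ (7 / 10 : ℝ) ≤ (((Icc 1 X).filter (fun k => ∃ u : ℕ,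
        k ^ 2 + 3 * k + 1 = (k₀ ^ 2 + 3 * k₀ + 1) * u ∧ Squarefree u ∧ u ≡ 1 [MOD D] ∧ (∀ i, g i u = 1) ∧
          cardFactors u ≡ 2 * j [MOD m])).card : ℝ) := by
  have : NeZero m := ⟨hm.ne'⟩
  obtain ⟨h, hh⟩ : ∃ h : ℕ → (Fin n → ZMod 2) × ZMod m,
      h = fun a => (fun i => if g i a = 1 then 0 else 1, (cardFactors a : ZMod m)) := ⟨_, rfl⟩
  have hadd : ∀ a b : ℕ, 0 < a → 0 < b → a.Coprime b → h (a * b) = h a + h b := by
    intro a b ha hb hab
    rw [hh]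
    refine Prod.ext ?_ ?_
    · funext i
      show (if g i (a * b) = 1 then (0 : ZMod 2) else 1) = (if g i a = 1 then 0 else 1) + (if g i b = 1 then 0 else 1)
      rw [hmul i a b ha hb hab]
      rcases hval i a ha with h1 | h1 <;> rcases hval i b hb with h2 | h2 <;> rw [h1, h2] <;> decide
    · show ((cardFactors (a * b) : ℕ) : ZMod m) = (cardFactors a : ZMod m) + (cardFactors b : ZMod m)
      rw [ArithmeticFunction.cardFactors_mul ha.ne' hb.ne']
      push_cast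
      rfl
  have ht : ∀ p : ℕ, p.Prime → 2 • h p = (0, 2) := by
    intro p hp
    rw [hh]
    refine Prod.ext ?_ ?_
    · funext i
      have e : ∀ x : ZMod 2, 2 • x = 0 := by decide
      exact e _
    · show 2 • ((cardFactors p : ℕ) : ZMod m) = 2
      rw [ArithmeticFunction.cardFactors_apply_prime hp]
      simp
  obtain ⟨κ, hκ, X₀, hX₀⟩ := law_numbers _ (fun _ _ => rfl) h hadd D hD k₀
  refine ⟨κ, hκ, X₀, fun j X hX => ((hX₀ (j • ((0, 2) : (Fin n → ZMod 2) × ZMod m)) ?_ X hX).2).trans (le_of_eq ?_)⟩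
  · rintro ξ ⟨W, ψ, hW, hs⟩
    rw [AddChar.map_nsmul_eq_pow]
    have h1 : ξ ((0, 2) : (Fin n → ZMod 2) × ZMod m) = 1 := by
      by_contra h0
      have : NeZero (5 * W) := ⟨by omega⟩
      refine MR.not_summable_class (W := 5 * W) (c := 1) isUnit_one (Summable.of_nonneg_of_le (fun p => ?_) (fun p => ?_) hs)
      · split_ifs
        · positivity
        · exact le_rfl
      · by_cases hp : p.Prime ∧ (p : ZMod (5 * W)) = 1
        · have h5W : p ≡ 1 [MOD 5 * W] := (ZMod.natCast_eq_natCast_iff p 1 (5 * W)).1 (by rw [Nat.cast_one]; exact hp.2)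
          have h5 : p % 5 = 1 := h5W.of_mul_right W
          have hW1 : ((p : ℕ) : ZMod W) = 1 := by
            have h6 : p ≡ 1 [MOD W] := h5W.of_mul_left 5
            have h7 := (ZMod.natCast_eq_natCast_iff p 1 W).2 h6
            rwa [Nat.cast_one] at h7
          have h9 : ξ (h p) ≠ ψ p := by
            intro h8
            refine h0 ?_
            rw [hW1] at h8
            have h10 : ψ (1 : ZMod W) = 1 := map_one ψ
            rw [← ht p hp.1, AddChar.map_nsmul_eq_pow, h8, h10, one_pow]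
          rw [if_pos hp, if_pos ⟨⟨hp.1, Or.inl h5⟩, h9⟩]
        · rw [if_neg hp]
          split_ifs
          · positivity
          · exact le_rfl
    rw [h1, one_pow]
  · refine congrArg (fun s : Finset ℕ => (s.card : ℝ)) (Finset.ext fun k => ?_)
    simp only [mem_filter]
    refine and_congr_right fun _ => exists_congr fun u => and_congr_right fun _ => and_congr_right fun hu =>
      and_congr_right fun _ => ?_
    rw [hh, Prod.ext_iff]
    refine and_congr ?_ ?_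
    · rw [funext_iff]
      refine forall_congr' fun i => ?_
      show (if g i u = 1 then (0 : ZMod 2) else 1) = j • (0 : ZMod 2) ↔ _
      rcases hval i u (Nat.pos_of_ne_zero hu.ne_zero) with h1 | h1 <;> rw [h1] <;> simp
    · show ((cardFactors u : ℕ) : ZMod m) = j • (2 : ZMod m) ↔ _
      rw [← ZMod.natCast_eq_natCast_iff, nsmul_eq_mul, mul_comm (j : ZMod m) 2, Nat.cast_mul, Nat.cast_ofNat]

private theorem rough_of {w a : ℕ} (h : a ≡ 1 [MOD w.factorial]) : ∀ p : ℕ, p.Prime → p ∣ a → w < p := by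
  intro p hp hd
  by_contra hw
  have h1 : p ∣ w.factorial := (hp.dvd_factorial).2 (not_lt.1 hw)
  have h2 : a ≡ 1 [MOD p] := h.of_dvd h1
  have h3 : p ∣ 1 := (h2.dvd_iff dvd_rfl).1 hd
  exact hp.one_lt.ne' (Nat.dvd_one.1 h3)

open Classical in
/-- Squarefree values without prime factors up to `w`: every residue class modulo `m` is taken by their number of prime
factors, for at least `κ X / (log X)^0.7` of the `k ≤ X`, with `f k ≡ 1` modulo `D`. -/
theorem rough_omega (m : ℕ) (hm : 0 < m) (w D : ℕ) (hD : 0 < D) :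
    ∃ κ : ℝ, 0 < κ ∧ ∃ X₀ : ℕ, ∀ j X : ℕ, X₀ ≤ X →
      κ * X / (Real.log X) ^ (7 / 10 : ℝ) ≤ (((Icc 1 X).filter (fun k => Squarefree (k ^ 2 + 3 * k + 1) ∧
        k ^ 2 + 3 * k + 1 ≡ 1 [MOD D] ∧ (∀ p : ℕ, p.Prime → p ∣ k ^ 2 + 3 * k + 1 → w < p) ∧
        cardFactors (k ^ 2 + 3 * k + 1) ≡ j [MOD m])).card : ℝ) := by
  have : NeZero m := ⟨hm.ne'⟩
  have hadd : ∀ a b : ℕ, 0 < a → 0 < b → a.Coprime b →
      ((cardFactors (a * b) : ℕ) : ZMod m) = (cardFactors a : ZMod m) + (cardFactors b : ZMod m) := by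
    intro a b ha hb _
    rw [ArithmeticFunction.cardFactors_mul ha.ne' hb.ne']
    push_cast
    rfl
  obtain ⟨κ, hκ, X₀, hX₀⟩ := values_of_primes (fun a => ((cardFactors a : ℕ) : ZMod m)) hadd (D * w.factorial)
    (Nat.mul_pos hD (Nat.factorial_pos w)) 0
  refine ⟨κ, hκ, X₀, fun j X hX => (hX₀ (j • (1 : ZMod m)) ?_ X hX).trans ?_⟩
  · refine AddSubgroup.nsmul_mem _ (AddSubgroup.subset_closure fun W hW hs => ?_) j
    have : NeZero W := ⟨hW.ne'⟩
    refine MR.not_summable_class (W := W) (c := 1) isUnit_one (hs.congr fun p => ?_)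
    have e1 : p ≡ 1 [MOD W] ↔ (p : ZMod W) = 1 := by
      rw [← ZMod.natCast_eq_natCast_iff, Nat.cast_one]
    by_cases h : p.Prime ∧ (p : ZMod W) = 1
    · rw [if_pos h, if_pos ⟨⟨h.1, e1.2 h.2⟩, by rw [ArithmeticFunction.cardFactors_apply_prime h.1, Nat.cast_one]⟩]
    · rw [if_neg h, if_neg (fun h2 => h ⟨h2.1.1, e1.1 h2.1.2⟩)]
  · refine Nat.cast_le.2 (Finset.card_le_card fun k hk => ?_)
    simp only [mem_filter] at hk ⊢
    obtain ⟨hk0, u, hk1, hk2, hk3, hk4⟩ := hk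
    have e : (0 ^ 2 + 3 * 0 + 1) * u = u := by norm_num
    rw [e] at hk1
    rw [← hk1] at hk2 hk3 hk4
    refine ⟨hk0, hk2, hk3.of_mul_right _, rough_of (hk3.of_mul_left D), ?_⟩
    rw [← ZMod.natCast_eq_natCast_iff, hk4, nsmul_eq_mul, mul_one]

open Classical in
/-- The Möbius function takes both values `1` and `-1` at `f k`, for `f k` without prime factors up to `w` and congruent to `1`
modulo `D`, for at least `κ X / (log X)^0.7` of the `k ≤ X`. -/
theorem moebius_both (w D : ℕ) (hD : 0 < D) :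
    ∃ κ : ℝ, 0 < κ ∧ ∃ X₀ : ℕ, ∀ s : ℤ, s = 1 ∨ s = -1 → ∀ X : ℕ, X₀ ≤ X →
      κ * X / (Real.log X) ^ (7 / 10 : ℝ) ≤ (((Icc 1 X).filter (fun k => ArithmeticFunction.moebius (k ^ 2 + 3 * k + 1) = s ∧
        k ^ 2 + 3 * k + 1 ≡ 1 [MOD D] ∧ ∀ p : ℕ, p.Prime → p ∣ k ^ 2 + 3 * k + 1 → w < p)).card : ℝ) := by
  obtain ⟨κ, hκ, X₀, hX₀⟩ := rough_omega 2 (by norm_num) w D hD
  refine ⟨κ, hκ, X₀, fun s hs X hX => ?_⟩
  obtain ⟨j, hj⟩ : ∃ j : ℕ, ∀ n : ℕ, n ≡ j [MOD 2] → (-1 : ℤ) ^ n = s := by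
    rcases hs with rfl | rfl
    · exact ⟨0, fun n hn => (Nat.even_iff.2 hn).neg_one_pow⟩
    · exact ⟨1, fun n hn => (Nat.odd_iff.2 hn).neg_one_pow⟩
  refine (hX₀ j X hX).trans (Nat.cast_le.2 (Finset.card_le_card fun k hk => ?_))
  simp only [mem_filter] at hk ⊢
  obtain ⟨hk0, hk1, hk2, hk3, hk4⟩ := hk
  exact ⟨hk0, by rw [ArithmeticFunction.moebius_apply_of_squarefree hk1]; exact hj _ hk4, hk2, hk3⟩

private theorem filter_eq' (S : Finset ℕ) (P Q : ℕ → Prop) (i : DecidablePred P) (j : DecidablePred Q) (h : ∀ k, P k ↔ Q k) :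
    @Finset.filter ℕ P i S = @Finset.filter ℕ Q j S :=
  Finset.filter_congr fun k _ => h k

open Classical in
/-- The number of prime factors of `f k` is equidistributed modulo `n`, in every residue class of `f k` modulo `D`, with the weights
`T c`, and the densities exist. -/
theorem omega_equal (n : ℕ) (hn : 0 < n) (T : ℝ → ℕ → ℕ)
    (hT : ∀ (c : ℝ) (k : ℕ), T c k = ((k ^ 2 + 3 * k + 1).divisors.filter
        (fun d : ℕ => (k : ℝ) ≤ c * d ∧ (d : ℝ) ≤ c * k)).card) :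
    ∃ μ : ℕ → ℕ → ℝ, (∀ D : ℕ, 0 < D → ∀ r : ℕ, 0 ≤ μ D r ∧ (0 < μ D r ↔ ∃ k : ℕ, k ^ 2 + 3 * k + 1 ≡ r [MOD D])) ∧
      ∀ D : ℕ, 0 < D → ∀ r j : ℕ, ∀ c : ℝ, 1 < c → ∀ ε : ℝ, 0 < ε → ∃ K : ℝ, ∀ B X : ℕ, 1 ≤ B → B ≤ X →
        |∑ k ∈ (Ioc B X).filter (fun k => k ^ 2 + 3 * k + 1 ≡ r [MOD D] ∧ cardFactors (k ^ 2 + 3 * k + 1) ≡ j [MOD n]),
          (T c k : ℝ) / k - μ D r * Real.log c * Real.log (X / B)| ≤ ε * Real.log (X / B) + K := by
  have : NeZero n := ⟨hn.ne'⟩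
  have hadd : ∀ a b : ℕ, 0 < a → 0 < b → a.Coprime b →
      ((cardFactors (a * b) : ℕ) : ZMod n) = (cardFactors a : ZMod n) + (cardFactors b : ZMod n) := by
    intro a b ha hb _
    rw [ArithmeticFunction.cardFactors_mul ha.ne' hb.ne']
    push_cast
    rfl
  obtain ⟨⟨μ, h1, h2, -⟩, -⟩ := Pool.Agent.Results.MP_d57abb_nt.ValueLaw.result T hT
    (fun a => ((cardFactors a : ℕ) : ZMod n)) hadd _ rfl
  have hall : ∀ x : ZMod n, ∀ ξ : AddChar (ZMod n) ℂ, (∃ (W : ℕ) (ψ : DirichletCharacter ℂ W), 0 < W ∧ Summable (fun p : ℕ =>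
        if (p.Prime ∧ (p % 5 = 1 ∨ p % 5 = 4)) ∧ ξ ((cardFactors p : ℕ) : ZMod n) ≠ ψ p then 1 / (p : ℝ) else 0)) → ξ x = 1 := by
    rintro x ξ ⟨W, ψ, hW, hs⟩
    have h3 : ξ (1 : ZMod n) = 1 := by
      by_contra h0
      have : NeZero (5 * W) := ⟨by omega⟩
      refine MR.not_summable_class (W := 5 * W) (c := 1) isUnit_one (Summable.of_nonneg_of_le (fun p => ?_) (fun p => ?_) hs)
      · split_ifs
        · positivity
        · exact le_rfl
      · by_cases hp : p.Prime ∧ (p : ZMod (5 * W)) = 1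
        · have h5W : p ≡ 1 [MOD 5 * W] := (ZMod.natCast_eq_natCast_iff p 1 (5 * W)).1 (by rw [Nat.cast_one]; exact hp.2)
          have h5 : p % 5 = 1 := h5W.of_mul_right W
          have hW1 : ((p : ℕ) : ZMod W) = 1 := by
            have h6 : p ≡ 1 [MOD W] := h5W.of_mul_left 5
            have h7 := (ZMod.natCast_eq_natCast_iff p 1 W).2 h6
            rwa [Nat.cast_one] at h7
          have h9 : ξ ((cardFactors p : ℕ) : ZMod n) ≠ ψ p := by
            have h10 : ψ (1 : ZMod W) = 1 := map_one ψ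
            rw [ArithmeticFunction.cardFactors_apply_prime hp.1, Nat.cast_one, hW1, h10]
            exact h0
          rw [if_pos hp, if_pos ⟨⟨hp.1, Or.inl h5⟩, h9⟩]
        · rw [if_neg hp]
          split_ifs
          · positivity
          · exact le_rfl
    have h4 : x = x.val • (1 : ZMod n) := by rw [nsmul_eq_mul, mul_one, ZMod.natCast_zmod_val]
    rw [h4, AddChar.map_nsmul_eq_pow, h3, one_pow]
  have hconst : ∀ D : ℕ, 0 < D → ∀ (r : ℕ) (a : ZMod n), μ D r a = μ D r 0 := by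
    intro D hD r a
    have h3 := (h1 D hD r 0).2.2 a (hall a)
    rwa [zero_add] at h3
  refine ⟨fun D r => μ D r 0, fun D hD r => ⟨(h1 D hD r 0).1, fun h3 => ?_, ?_⟩, fun D hD r j c hc ε hε => ?_⟩
  · obtain ⟨k, hk, -⟩ := ((h1 D hD r 0).2.1).1 h3
    exact ⟨k, hk⟩
  · rintro ⟨k, hk⟩
    show 0 < μ D r 0
    rw [← hconst D hD r ((cardFactors (k ^ 2 + 3 * k + 1) : ℕ) : ZMod n)]
    exact ((h1 D hD r _).2.1).2 ⟨k, hk, rfl⟩
  · obtain ⟨K, hK⟩ := h2 D hD r (j : ZMod n) c hc ε hε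
    refine ⟨K, fun B X hB hX => le_trans (le_of_eq ?_) (hK B X hB hX)⟩
    rw [hconst D hD r (j : ZMod n)]
    refine congrArg (fun S : Finset ℕ => |∑ k ∈ S, (T c k : ℝ) / k - μ D r 0 * Real.log c * Real.log (X / B)|)
      (filter_eq' _ _ _ _ _ fun k => and_congr_right fun _ => ?_)
    exact (ZMod.natCast_eq_natCast_iff _ _ _).symm

end Pool.Agent.Lib.MP_d57abb_nt.GV
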